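import Pool.Agent.Lib.MP_b16327_pr.CoreD
import Pool.Agent.Lib.MP_b16327_pr.KK
import Pool.Agent.Lib.MP_b16327_pr.XMf

/-!
# The harmonic measure of a finitely supported walk on a Fuchsian group is singular

`SU11` is the group `SU(1,1)`, a double cover of `PSL(2,R)`; it acts on the unit disc `𝔻` and on the
unit circle by `z ↦ (a z + b) / (conj b z + conj a)`; `lam` is the normalised arc length.
-/

namespace Pool.Agent.Results.MP_b16327_pr.HarmonicMeasureSingular

open Complex MeasureTheory Pool.Agent.Lib.MP_b16327_pr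
open scoped Complex.UnitDisc

/-- Let `μ = ∑_{g ∈ S} p(g) δ_g` be a finitely supported probability measure whose support
generates an infinite discrete subgroup of `SU(1,1)`.  Then every `μ`-stationary probability
measure on the circle is singular with respect to the normalised arc length. -/
theorem result (S : Finset SU11) (p : SU11 → ℝ) (hp : ∀ g ∈ S, 0 < p g)
    (hsum : ∑ g ∈ S, p g = 1)
    (hdisc : IsDisc (Subgroup.closure (S : Set SU11)))
    (hinf : (Subgroup.closure (S : Set SU11) : Set SU11).Infinite)
    (ν : Measure Circle) [IsProbabilityMeasure ν]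
    (hν : ν = ∑ g ∈ S, ENNReal.ofReal (p g) • Measure.map (fun ξ : Circle => g • ξ) ν) :
    ν ⟂ₘ lam := by
  let W : Walk :=
    { ι := {x // x ∈ S}
      fin := inferInstance
      h := fun g => g.1
      p := fun g => p g.1
      nonneg := fun g => (hp g.1 g.2).le
      sum := by rw [← hsum]; exact Finset.sum_coe_sort S p }
  have hset : W.h '' {i | 0 < W.p i} = (S : Set SU11) := by
    ext g
    constructor
    · rintro ⟨i, -, rfl⟩
      exact i.2
    · intro hg
      exact ⟨⟨g, hg⟩, hp g hg, rfl⟩
  have hΓ : Subgroup.closure (S : Set SU11) = Subgroup.closure (W.h '' {i | 0 < W.p i}) := by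
    rw [hset]
  have hW : ∀ k, W.h k ∈ Subgroup.closure (S : Set SU11) :=
    fun k => Subgroup.subset_closure k.2
  have hst : W.Stat ν := by
    unfold Walk.Stat
    conv_lhs => rw [hν]
    exact (Finset.sum_coe_sort S
      (fun g => ENNReal.ofReal (p g) • Measure.map (fun ξ : Circle => g • ξ) ν)).symm
  have hunb : ∀ C : ℝ, ∃ g ∈ Subgroup.closure (S : Set SU11), C ≤ Lg g := by
    intro C
    by_contra hcon
    push Not at hcon
    apply hinf
    refine (hdisc (Real.exp (C / 2))).subset ?_
    intro g hg
    refine ⟨hg, ?_⟩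
    have h1 : Lg g < C := hcon g hg
    have h2 : 0 < ‖g.a‖ := lt_of_lt_of_le one_pos g.one_le_norm_a
    have h3 : Lg g = 2 * Real.log ‖g.a‖ := by
      unfold Lg
      rw [Complex.normSq_eq_norm_sq, Real.log_pow]
      push_cast
      ring
    rw [h3] at h1
    have h4 : Real.log ‖g.a‖ ≤ C / 2 := by linarith
    rw [← Real.exp_log h2]
    exact Real.exp_le_exp.2 h4
  by_contra hns
  obtain ⟨ν', hν'p, hν', hst'⟩ := exists_ac W ν hst hns
  have hcoc := cocpt_of_ac W hΓ hW hdisc hunb ν' hν' hst'
  obtain ⟨Γ₁, hle, hfin, h3⟩ := exists_three hdisc hcoc ⟨S, rfl⟩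
  exact hns (core W hΓ hW hdisc hcoc hle hfin h3 ν hst)

end Pool.Agent.Results.MP_b16327_pr.HarmonicMeasureSingular
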